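import Pool.Agent.Helper242.RK.Two5
import Pool.Agent.Helper242.RK.Main
import Pool.Agent.Helper242.RK.RHeq

set_option autoImplicit false

namespace Pool.Agent.Results.MP_c1ac71_an.DeterminesA

open MeasureTheory

/-- The Riemann kernel: the sum over `n ≥ 1` of
`(2 n^4 π^2 e^{9t} - 3 n^2 π e^{5t}) exp (-n^2 π e^{4t})` (the index is shifted by one). -/
noncomputable def Phi (t : ℝ) : ℝ :=
  ∑' n : ℕ, (2 * ((n : ℝ) + 1) ^ 4 * Real.pi ^ 2 * Real.exp (9 * t)
    - 3 * ((n : ℝ) + 1) ^ 2 * Real.pi * Real.exp (5 * t)) *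
      Real.exp (-(((n : ℝ) + 1) ^ 2 * Real.pi * Real.exp (4 * t)))

/-- The cosine transform `F_α z = ∫_0^∞ Φ(t)^α cos (z t) dt`. -/
noncomputable def F (α : ℝ) (z : ℂ) : ℂ :=
  ∫ t in Set.Ioi (0 : ℝ), ((Phi t ^ α : ℝ) : ℂ) * Complex.cos (z * t)

/-- The set of all `α > 0` for which `F_α` has a non-real zero. -/
def A : Set ℝ := {α | 0 < α ∧ ∃ z : ℂ, z.im ≠ 0 ∧ F α z = 0}

lemma Phi_eq : Phi = Pool.Agent.Helper242.RK.Phi := rfl

lemma F_eq : F = Pool.Agent.Helper242.RK.F := rfl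

/-- Sanity: the kernel is positive and even, and the transform is entire. -/
lemma sanity : (∀ t : ℝ, 0 < Phi t) ∧ (∀ t : ℝ, Phi (-t) = Phi t) ∧
    (∀ α : ℝ, 0 < α → Differentiable ℂ (F α)) :=
  ⟨Pool.Agent.Helper242.RK.Phi_pos, Pool.Agent.Helper242.RK.Phi_even,
    fun _ hα => Pool.Agent.Helper242.RK.differentiable_F hα⟩

/-- For every `α > 0` other than `1` the function `F_α` has a non-real zero. -/
lemma all_but_one : ∀ α : ℝ, 0 < α → α ≠ 1 → α ∈ A := by
  intro α hα h1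
  refine ⟨hα, ?_⟩
  rw [F_eq]
  by_cases hs : Real.sin (Real.pi * α) = 0
  · obtain ⟨k, hk⟩ := Real.sin_eq_zero_iff.1 hs
    have hkα : (k : ℝ) = α := by
      have h3 : Real.pi * (k : ℝ) = Real.pi * α := by linarith
      exact mul_left_cancel₀ Real.pi_ne_zero h3
    have hk0 : 0 ≤ k := by
      have : (0 : ℝ) ≤ (k : ℝ) := by rw [hkα]; exact hα.le
      exact_mod_cast this
    obtain ⟨n, rfl⟩ := Int.eq_ofNat_of_zero_le hk0
    have hn : (n : ℝ) = α := by rw [← hkα]; simp
    rw [← hn]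
    have hcases : n = 0 ∨ n = 1 ∨ n = 2 ∨ 3 ≤ n := by omega
    rcases hcases with h | h | h | h
    · rw [h] at hn; simp at hn; linarith
    · rw [h] at hn; simp at hn; exact absurd hn.symm h1
    · rw [h]
      exact Pool.Agent.Helper242.RK.exists_nonreal_zero_two
    · exact Pool.Agent.Helper242.RK.exists_nonreal_zero_nat h
  · exact Pool.Agent.Helper242.RK.exists_nonreal_zero hα hs

/-- `1 ∈ A` exactly when the Riemann hypothesis fails. -/
lemma one_mem_iff : (1 : ℝ) ∈ A ↔ ¬ RiemannHypothesis := by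
  have h := Pool.Agent.Helper242.RK.exists_nonreal_zero_one_iff
  rw [Nat.cast_one, ← F_eq] at h
  rw [← h]
  exact ⟨fun h => h.2, fun h => ⟨one_pos, h⟩⟩

/-- The set `A` is determined: every `α > 0` other than `1` belongs to it, and `1` belongs to it
exactly when the Riemann hypothesis is false. -/
theorem result : A = {α : ℝ | 0 < α ∧ (α = 1 → ¬ RiemannHypothesis)} := by
  ext α
  constructor
  · intro h
    refine ⟨h.1, fun h1 => ?_⟩
    rw [h1] at h
    exact one_mem_iff.1 h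
  · rintro ⟨h0, h⟩
    by_cases h1 : α = 1
    · rw [h1]
      exact one_mem_iff.2 (h h1)
    · exact all_but_one α h0 h1

end Pool.Agent.Results.MP_c1ac71_an.DeterminesA
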