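import Pool.Agent.Helper242.RK.Main

set_option autoImplicit false

namespace Pool.Agent.Results.MP_c1ac71_an.NonInteger

open MeasureTheory

/-- The Riemann kernel: the sum over `n ≥ 1` of
`(2 n^4 π^2 e^{9t} - 3 n^2 π e^{5t}) exp (-n^2 π e^{4t})` (the index is shifted by one). -/
noncomputable def Phi (t : ℝ) : ℝ :=
  ∑' n : ℕ, (2 * ((n : ℝ) + 1) ^ 4 * Real.pi ^ 2 * Real.exp (9 * t)
    - 3 * ((n : ℝ) + 1) ^ 2 * Real.pi * Real.exp (5 * t)) *
      Real.exp (-(((n : ℝ) + 1) ^ 2 * Real.pi * Real.exp (4 * t)))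

/-- The cosine transform `F_α z = ∫_0^∞ Φ(t)^α cos (z t) dt`. -/
noncomputable def F (α : ℝ) (z : ℂ) : ℂ :=
  ∫ t in Set.Ioi (0 : ℝ), ((Phi t ^ α : ℝ) : ℂ) * Complex.cos (z * t)

/-- The set of all `α > 0` for which `F_α` has a non-real zero. -/
def A : Set ℝ := {α | 0 < α ∧ ∃ z : ℂ, z.im ≠ 0 ∧ F α z = 0}

lemma Phi_eq : Phi = Pool.Agent.Helper242.RK.Phi := rfl

lemma F_eq : F = Pool.Agent.Helper242.RK.F := rfl

/-- Sanity: the kernel is positive and even, and the transform is entire. -/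
lemma sanity : (∀ t : ℝ, 0 < Phi t) ∧ (∀ t : ℝ, Phi (-t) = Phi t) ∧
    (∀ α : ℝ, 0 < α → Differentiable ℂ (F α)) :=
  ⟨Pool.Agent.Helper242.RK.Phi_pos, Pool.Agent.Helper242.RK.Phi_even,
    fun _ hα => Pool.Agent.Helper242.RK.differentiable_F hα⟩

/-- For every non-integer `α > 0` the function `F_α` has a non-real zero. -/
theorem result : ∀ α : ℝ, 0 < α → (∀ n : ℕ, α ≠ n) → α ∈ A := by
  intro α hα hn
  refine ⟨hα, ?_⟩
  rw [F_eq]
  refine Pool.Agent.Helper242.RK.exists_nonreal_zero hα ?_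
  intro hs
  obtain ⟨k, hk⟩ := Real.sin_eq_zero_iff.1 hs
  have h1 : (k : ℝ) = α := by
    have h2 : Real.pi * (k : ℝ) = Real.pi * α := by linarith
    exact mul_left_cancel₀ Real.pi_ne_zero h2
  have hk0 : 0 ≤ k := by
    have : (0 : ℝ) ≤ (k : ℝ) := by rw [h1]; exact hα.le
    exact_mod_cast this
  obtain ⟨n, rfl⟩ := Int.eq_ofNat_of_zero_le hk0
  exact hn n (by rw [← h1]; simp)

end Pool.Agent.Results.MP_c1ac71_an.NonInteger
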